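import Pool.Agent.Helper30.GrigorchukProof

set_option autoImplicit false

namespace Pool.Agent.Results.MP_220364_al.GrigorchukGroup

open Pool.Agent.Helper30

/-- Grigorchuk's first group has infinite weak hyperbolic dimension, for the word metric of every
finite generating set. -/
theorem result (S : Set Grigorchuk.grigorchukGroup) (hfin : S.Finite)
    (hS : Subgroup.closure S = ⊤) :
    @WHyp.weakHyperbolicDimension Grigorchuk.grigorchukGroup (WHyp.wordMetric S hS) = ⊤ :=
  Grigorchuk.weakHyperbolicDimension_grigorchuk S hfin hS

end Pool.Agent.Results.MP_220364_al.GrigorchukGroup
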