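import Pool.Agent.Helper20.Out.Trans

/-!
# MP_220364_al: a lower bound for the weak hyperbolic dimension of the outer automorphism group of a free group
-/

set_option autoImplicit false

namespace Pool.Agent.Results.MP_220364_al.OutFreeLowerBound

open Pool.Agent.Helper30 Pool.Agent.Helper20.OutF

/-- For `n ≥ 3` the outer automorphism group of the free group of rank `n` has weak hyperbolic
dimension at least `2n - 4`, for the word metric of every finite generating set. -/
theorem result (n : ℕ) (hn : 3 ≤ n) (S : Set (OutFree n)) (hfin : S.Finite)
    (hS : Subgroup.closure S = ⊤) :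
    ((2 * n - 4 : ℕ) : ℕ∞) ≤ @WHyp.weakHyperbolicDimension (OutFree n) (WHyp.wordMetric S hS) :=
  out_lower hn S hfin hS

end Pool.Agent.Results.MP_220364_al.OutFreeLowerBound
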