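import Pool.Agent.Helper30.ThompsonProof

set_option autoImplicit false

namespace Pool.Agent.Results.MP_220364_al.ThompsonF

open Pool.Agent.Helper30

/-- Thompson's group `F` has infinite weak hyperbolic dimension, for the word metric of every finite
generating set. -/
theorem result (S : Set Thompson.F) (hfin : S.Finite) (hS : Subgroup.closure S = ⊤) :
    @WHyp.weakHyperbolicDimension Thompson.F (WHyp.wordMetric S hS) = ⊤ :=
  Thompson.weakHyperbolicDimension_F S hfin hS

end Pool.Agent.Results.MP_220364_al.ThompsonF
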